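import Pool.Agent.R53.OddPos

namespace Pool.Agent.Results.MP_ee21b2_co.IntegerRatio

open Finset

/-- the largest row sum `‖M‖_∞` of a matrix -/
noncomputable def rowNorm {n k : ℕ} (M : Matrix (Fin n) (Fin k) ℝ) : ℝ := ⨆ x, ∑ y, M x y

/-- the largest column sum `‖M‖_1` of a matrix -/
noncomputable def colNorm {n k : ℕ} (M : Matrix (Fin n) (Fin k) ℝ) : ℝ := ⨆ y, ∑ x, M x y

theorem row_le {n k : ℕ} (M : Matrix (Fin n) (Fin k) ℝ) (x : Fin n) :
    ∑ y, M x y ≤ rowNorm M :=
  le_ciSup (f := fun x => ∑ y, M x y) (Set.finite_range _).bddAbove x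

theorem col_le {n k : ℕ} (M : Matrix (Fin n) (Fin k) ℝ) (y : Fin k) :
    ∑ x, M x y ≤ colNorm M :=
  le_ciSup (f := fun y => ∑ x, M x y) (Set.finite_range _).bddAbove y

theorem main {n k : ℕ} (M : Matrix (Fin n) (Fin k) ℝ) (hM : ∀ x y, 0 ≤ M x y)
    (t : ℕ) (ht : Odd t) (x : Fin t → Fin n) (y : Fin t → Fin k)
    (hinj : Function.Injective (fun i => (x i, y i))) (hzero : ∀ i, M (x i) (y i) = 0)
    (q : ℕ) (R : ℝ) (hR : 0 ≤ R) (hrow : ∀ x, ∑ y, M x y ≤ R) (hcol : ∀ y, ∑ x, M x y ≤ q * R) :
    ∑ i, ∑ j, M (x i) (y j) * M (x j) (y i) ≤ ((t : ℝ) - 1) * (q * R ^ 2) := by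
  classical
  rcases hR.eq_or_lt with hR0 | hR0
  · -- all entries vanish
    have hz : ∀ a b, M a b = 0 := by
      intro a b
      apply le_antisymm _ (hM a b)
      have := Finset.single_le_sum (f := fun y => M a y) (fun y _ => hM a y) (Finset.mem_univ b)
      have h2 := hrow a
      rw [← hR0] at h2
      exact this.trans h2
    simp [hz, ← hR0]
  · -- the matrix V
    set V : Fin k → Fin k → ℝ := fun b b' => (∑ i ∈ univ.filter (fun i => y i = b), M (x i) b') / R
      with hV
    set c : Fin k → ℕ := fun b => (univ.filter (fun i => y i = b)).card with hc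
    have hcsum : ∑ b, c b = t := by
      rw [hc, ← Finset.card_eq_sum_card_fiberwise (f := y) (s := univ) (t := univ)
        (fun i _ => Finset.mem_coe.mpr (Finset.mem_univ _))]
      simp
    have hV0 : ∀ b b', 0 ≤ V b b' := fun b b' =>
      div_nonneg (Finset.sum_nonneg (fun i _ => hM _ _)) hR0.le
    have hVq : ∀ b b', V b b' ≤ q := by
      intro b b'
      rw [hV]
      simp only
      rw [div_le_iff₀ hR0]
      refine le_trans ?_ (hcol b')
      have hinj' : Set.InjOn x (univ.filter (fun i => y i = b) : Finset (Fin t)) := by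
        intro i hi j hj hij
        simp only [coe_filter, mem_univ, true_and, Set.mem_ofPred_eq] at hi hj
        apply hinj
        simp only [hij, hi, hj]
      rw [← Finset.sum_image (f := fun a => M a b') hinj']
      exact Finset.sum_le_sum_of_subset_of_nonneg (Finset.subset_univ _) (fun a _ _ => hM a b')
    have hVd : ∀ b, V b b = 0 := by
      intro b
      rw [hV]
      simp only
      rw [Finset.sum_eq_zero, zero_div]
      intro i hi
      have := (Finset.mem_filter.mp hi).2
      rw [← this]
      exact hzero i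
    have hVs : ∀ b, ∑ b', V b b' ≤ c b := by
      intro b
      rw [hV, hc]
      simp only
      rw [← Finset.sum_div, Finset.sum_comm, div_le_iff₀ hR0]
      calc ∑ i ∈ univ.filter (fun i => y i = b), ∑ b', M (x i) b'
          ≤ ∑ i ∈ univ.filter (fun i => y i = b), R := Finset.sum_le_sum (fun i _ => hrow _)
        _ = _ := by rw [Finset.sum_const, nsmul_eq_mul]
    have hodd : Odd (∑ b, c b) := by rw [hcsum]; exact ht
    have key := R53.OddPos.real_bound q c V hV0 hVq hVd hVs hodd
    rw [hcsum] at key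
    -- identify the sum
    have hS : ∑ i, ∑ j, M (x i) (y j) * M (x j) (y i) = R ^ 2 * R53.OddPos.F V := by
      have h1 : ∀ b b', R ^ 2 * (V b b' * V b' b) = ∑ i ∈ univ.filter (fun i => y i = b),
          ∑ j ∈ univ.filter (fun j => y j = b'), M (x i) (y j) * M (x j) (y i) := by
        intro b b'
        have h2 : R ^ 2 * (V b b' * V b' b) = (∑ i ∈ univ.filter (fun i => y i = b), M (x i) b') *
            (∑ j ∈ univ.filter (fun j => y j = b'), M (x j) b) := by
          rw [hV]
          simp only
          field_simp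
        rw [h2, Finset.sum_mul_sum]
        apply Finset.sum_congr rfl
        intro i hi
        apply Finset.sum_congr rfl
        intro j hj
        rw [(Finset.mem_filter.mp hi).2, (Finset.mem_filter.mp hj).2]
      unfold R53.OddPos.F
      rw [Finset.mul_sum]
      have h3 : ∀ b, R ^ 2 * ∑ b', V b b' * V b' b = ∑ i ∈ univ.filter (fun i => y i = b),
          ∑ j, M (x i) (y j) * M (x j) (y i) := by
        intro b
        rw [Finset.mul_sum]
        simp only [h1]
        rw [Finset.sum_comm]
        apply Finset.sum_congr rfl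
        intro i _
        rw [Finset.sum_fiberwise]
      simp only [h3]
      rw [Finset.sum_fiberwise]
    rw [hS]
    calc R ^ 2 * R53.OddPos.F V ≤ R ^ 2 * (q * ((t : ℝ) - 1)) :=
          mul_le_mul_of_nonneg_left key (by positivity)
      _ = ((t : ℝ) - 1) * (q * R ^ 2) := by ring

theorem rowNorm_nonneg {n k : ℕ} (M : Matrix (Fin n) (Fin k) ℝ) (hM : ∀ x y, 0 ≤ M x y) :
    0 ≤ rowNorm M :=
  Real.iSup_nonneg (fun x => Finset.sum_nonneg (fun y _ => hM x y))

theorem colNorm_nonneg {n k : ℕ} (M : Matrix (Fin n) (Fin k) ℝ) (hM : ∀ x y, 0 ≤ M x y) :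
    0 ≤ colNorm M :=
  Real.iSup_nonneg (fun y => Finset.sum_nonneg (fun x _ => hM x y))

theorem general {n k : ℕ} (M : Matrix (Fin n) (Fin k) ℝ) (hM : ∀ x y, 0 ≤ M x y)
    (t : ℕ) (ht : Odd t) (x : Fin t → Fin n) (y : Fin t → Fin k)
    (hinj : Function.Injective (fun i => (x i, y i))) (hzero : ∀ i, M (x i) (y i) = 0)
    (q : ℕ) (hq : max (rowNorm M) (colNorm M) ≤ q * min (rowNorm M) (colNorm M)) :
    ∑ i, ∑ j, M (x i) (y j) * M (x j) (y i)
      ≤ ((t : ℝ) - 1) * (q * min (rowNorm M) (colNorm M) ^ 2) := by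
  rcases le_total (rowNorm M) (colNorm M) with h | h
  · rw [max_eq_right h, min_eq_left h] at hq
    rw [min_eq_left h]
    exact main M hM t ht x y hinj hzero q _ (rowNorm_nonneg M hM) (row_le M)
      (fun b => (col_le M b).trans hq)
  · rw [max_eq_left h, min_eq_right h] at hq
    rw [min_eq_right h]
    have := main M.transpose (fun a b => hM b a) t ht y x
      (fun i j hij => hinj (by
        simp only [Prod.mk.injEq] at hij ⊢
        exact ⟨hij.2, hij.1⟩)) hzero q _ (colNorm_nonneg M hM) (fun b => col_le M b)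
      (fun a => (row_le M a).trans hq)
    refine le_trans (le_of_eq ?_) this
    apply Finset.sum_congr rfl
    intro i _
    apply Finset.sum_congr rfl
    intro j _
    simp only [Matrix.transpose_apply]
    ring

/-- Let `M` be a non-negative matrix, `t` odd, and `(x i, y i)`, `i < t`, distinct positions where
`M` vanishes.  If the larger of the two norms is at most `q` times the smaller one `m`
(`q` a natural number), then the double sum is at most `(t - 1) q m²`; and if the larger norm is
exactly `q` times the smaller one, then the conjectured inequality holds. -/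
theorem result {n k : ℕ} (M : Matrix (Fin n) (Fin k) ℝ) (hM : ∀ x y, 0 ≤ M x y)
    (t : ℕ) (ht : Odd t) (x : Fin t → Fin n) (y : Fin t → Fin k)
    (hinj : Function.Injective (fun i => (x i, y i))) (hzero : ∀ i, M (x i) (y i) = 0) (q : ℕ) :
    (max (rowNorm M) (colNorm M) ≤ q * min (rowNorm M) (colNorm M) →
      ∑ i, ∑ j, M (x i) (y j) * M (x j) (y i)
        ≤ ((t : ℝ) - 1) * (q * min (rowNorm M) (colNorm M) ^ 2)) ∧
    (max (rowNorm M) (colNorm M) = q * min (rowNorm M) (colNorm M) →
      ∑ i, ∑ j, M (x i) (y j) * M (x j) (y i) ≤ ((t : ℝ) - 1) * rowNorm M * colNorm M) := by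
  refine ⟨general M hM t ht x y hinj hzero q, fun h => ?_⟩
  refine (general M hM t ht x y hinj hzero q h.le).trans (le_of_eq ?_)
  have h1 : rowNorm M * colNorm M = min (rowNorm M) (colNorm M) * max (rowNorm M) (colNorm M) :=
    (min_mul_max _ _).symm
  rw [mul_assoc, h1, h]
  ring

end Pool.Agent.Results.MP_ee21b2_co.IntegerRatio
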